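import Pool.Agent.V1189.SC.Schmidt
import Pool.Agent.W472.AC.Mono
import Pool.Agent.W472.AC.Joint
import Pool.Agent.TH768.DG.Main

/-!
# Consequences of Schmidt's theorem for the digits of algebraic numbers

Author: helper89. The passage from measures of linear independence to digits is that of the starting
library (`Pool.Agent.W472.AC`, helper472; `Pool.Agent.TH768.DG`, helper768).
-/

set_option autoImplicit false

namespace Pool.Agent.V1189.SC

open Finset Filter Polynomial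
open Pool.Agent.W472.AC (Meas MeasL MeasP two_sided_of mon_lower monRelation_of_lt MonRelation
  monComplexity algComplexity alg_two_sided linComplexity lin_two_sided)

/-- measure of linear independence for algebraic tuples -/
theorem measL (n : ℕ) (α : Fin n → ℝ) (halg : ∀ j, IsAlgebraic ℚ (α j))
    (hli : LinearIndependent ℚ (Fin.cons 1 α : Fin (n + 1) → ℝ)) (η : ℝ) (hη : 0 < η) :
    ∃ c : ℝ, 0 < c ∧ MeasL α (n + η) c := by
  obtain ⟨c, hc, hM⟩ := schmidt n (Fin.cons 1 α : Fin (n + 1) → ℝ) (fun j => by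
    refine Fin.cases ?_ (fun s => ?_) j
    · exact isAlgebraic_one
    · exact halg s) hli η hη
  refine ⟨c, hc, fun u v huv H hH hu hv => ?_⟩
  have h1 := hM (Fin.cons u v) (by
    intro h0
    rcases huv with h1 | h1
    · exact h1 (congrFun h0 0)
    · exact h1 (funext fun s => congrFun h0 s.succ)) H hH (fun j => by
      refine Fin.cases ?_ (fun s => ?_) j
      · exact hu
      · exact hv s)
  rw [Fin.sum_univ_succ] at h1
  simpa using h1

theorem normal (n : ℕ) (α : Fin n → ℝ) (halg : ∀ j, IsAlgebraic ℚ (α j))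
    (hli : LinearIndependent ℚ (Fin.cons 1 α : Fin (n + 1) → ℝ)) :
    Pool.Agent.TH768.DG.NormalMeasure α := fun η hη => measL n α halg hli η hη

/-- the powers of an algebraic number -/
theorem measP (α : ℝ) (r : ℕ) (hα : r < (minpoly ℚ α).natDegree) (η : ℝ) (hη : 0 < η) :
    ∃ c : ℝ, 0 < c ∧ MeasP α r (r + η) c := by
  have hint : IsIntegral ℚ α := by
    by_contra h
    rw [minpoly.eq_zero h, natDegree_zero] at hα
    omega
  have hli : LinearIndependent ℚ (fun j : Fin (r + 1) => α ^ (j : ℕ)) := by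
    have h1 := linearIndependent_pow (K := ℚ) α
    have h2 := h1.comp (Fin.castLE (by omega : r + 1 ≤ (minpoly ℚ α).natDegree))
      (Fin.castLE_injective _)
    exact h2
  obtain ⟨c, hc, hM⟩ := schmidt r (fun j : Fin (r + 1) => α ^ (j : ℕ))
    (fun j => hint.isAlgebraic.pow _) hli η hη
  refine ⟨c, hc, fun P hP hPd H hH hPH => ?_⟩
  have h1 := hM (fun j => P.coeff j) (by
    intro h0
    apply hP
    ext j
    by_cases hj : j < r + 1
    · exact congrFun h0 ⟨j, hj⟩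
    · rw [coeff_eq_zero_of_natDegree_lt (by omega), coeff_zero]) H hH (fun j => hPH j)
  have h2 : aeval α P = ∑ i : Fin (r + 1), (P.coeff i : ℝ) * α ^ (i : ℕ) := by
    rw [aeval_eq_sum_range' (show P.natDegree < r + 1 by omega), Finset.sum_range]
    refine Finset.sum_congr rfl fun i _ => ?_
    rw [zsmul_eq_mul]
  rw [h2]
  exact h1

/-- **Algebraic complexity of every degree.** -/
theorem alg_complexity (α : ℝ) (r : ℕ) (hα : r < (minpoly ℚ α).natDegree) (ε : ℝ) (hε : 0 < ε) :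
    ∃ L₀ : ℕ, ∀ L : ℕ, L₀ ≤ L → ∀ b : ℕ, 2 ≤ b →
      |(algComplexity b α r L : ℝ) - L / (r + 1)| < ε * L := by
  obtain ⟨L₀, h⟩ := alg_two_sided α r (fun η hη => measP α r hα η hη) ε hε
  refine ⟨L₀, fun L hL b hb => ?_⟩
  have h2 := h L hL b hb
  have e : (L : ℝ) / (r + 1) = 1 / ((r : ℝ) + 1) * L := by ring
  rw [abs_lt, e]
  constructor <;> linarith [h2.1, h2.2]

/-- **Independent monomials.** -/
theorem mon_complexity {n m : ℕ} (x : Fin n → ℝ) (halg : ∀ i, IsAlgebraic ℚ (x i))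
    (E : Fin (m + 1) → Fin n → ℕ)
    (hli : LinearIndependent ℚ (fun j => ∏ i, Int.fract (x i) ^ E j i)) (ε : ℝ) (hε : 0 < ε) :
    ∃ L₀ : ℕ, ∀ L : ℕ, L₀ ≤ L → ∀ b : ℕ, 2 ≤ b →
      |(monComplexity b x E L : ℝ) - L / (m + 1)| < ε * L := by
  have hm0 : (0 : ℝ) ≤ m := Nat.cast_nonneg m
  obtain ⟨c, hc, hM⟩ := schmidt m (fun j => ∏ i, Int.fract (x i) ^ E j i) (fun j =>
    Finset.prod_induction _ (IsAlgebraic ℚ) (fun _ _ ha hb => ha.mul hb) isAlgebraic_one
      fun i _ => by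
        refine IsAlgebraic.pow ?_ _
        unfold Int.fract
        exact (halg i).sub (isAlgebraic_int _)) hli (ε / 2) (by linarith)
  obtain ⟨L₀, h⟩ := two_sided_of (fun b L k => MonRelation b x E L k) m ((m : ℝ) + ε / 2)
    (by linarith) (fun b L k h => monRelation_of_lt b x E L k h)
    (fun θ hθ0 hθ => mon_lower x E _ c (by linarith) hc hM θ hθ0 hθ) (ε / 2) (by linarith)
  obtain ⟨L₁, hL₁⟩ := exists_nat_gt (0 : ℝ)
  refine ⟨max L₀ L₁, fun L hL b hb => ?_⟩
  have h2 : (1 / ((m : ℝ) + ε / 2 + 1) - ε / 2) * L < monComplexity b x E L ∧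
      (monComplexity b x E L : ℝ) < (1 / ((m : ℝ) + 1) + ε / 2) * L :=
    h L ((le_max_left _ _).trans hL) b hb
  have hLR : (0 : ℝ) < L := by
    have : (L₁ : ℝ) ≤ L := by exact_mod_cast (le_max_right _ _).trans hL
    linarith
  have e : (L : ℝ) / (m + 1) = 1 / ((m : ℝ) + 1) * L := by ring
  have h3 : 1 / ((m : ℝ) + 1) - ε / 2 ≤ 1 / ((m : ℝ) + ε / 2 + 1) := by
    have h6 : 0 < (m : ℝ) + 1 := by linarith
    have h7 : 0 < (m : ℝ) + ε / 2 + 1 := by linarith
    have h8 : 1 / ((m : ℝ) + 1) - 1 / ((m : ℝ) + ε / 2 + 1) =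
        (ε / 2) / (((m : ℝ) + 1) * ((m : ℝ) + ε / 2 + 1)) := by
      field_simp
      ring
    have h9 : (ε / 2) / (((m : ℝ) + 1) * ((m : ℝ) + ε / 2 + 1)) ≤ ε / 2 :=
      div_le_self (by linarith) (by nlinarith)
    linarith
  rw [abs_lt, e]
  have h4 := mul_le_mul_of_nonneg_right h3 hLR.le
  have h5 : 0 < ε / 2 * L := by positivity
  constructor
  · linarith [h2.1]
  · linarith [h2.2]

/-- **Linear relations between the digits of several numbers.** -/
theorem lin_complexity (n : ℕ) (α : Fin n → ℝ) (halg : ∀ j, IsAlgebraic ℚ (α j))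
    (hli : LinearIndependent ℚ (Fin.cons 1 α : Fin (n + 1) → ℝ)) (ε : ℝ) (hε : 0 < ε) :
    ∃ L₀ : ℕ, ∀ L : ℕ, L₀ ≤ L → ∀ b : ℕ, 2 ≤ b →
      |(linComplexity b α L : ℝ) - L / (n + 1)| < ε * L := by
  obtain ⟨L₀, h⟩ := lin_two_sided α (fun η hη => measL n α halg hli η hη) ε hε
  refine ⟨L₀, fun L hL b hb => ?_⟩
  have h2 := h L hL b hb
  have e : (L : ℝ) / (n + 1) = 1 / ((n : ℝ) + 1) * L := by ring
  rw [abs_lt, e]
  constructor <;> linarith [h2.1, h2.2]

/-- **Common recurrences.** -/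
theorem common_order (n : ℕ) (hn : 1 ≤ n) (α : Fin n → ℝ) (halg : ∀ j, IsAlgebraic ℚ (α j))
    (hli : LinearIndependent ℚ (Fin.cons 1 α : Fin (n + 1) → ℝ)) :
    (∀ ε : ℝ, 0 < ε → ∃ L₀ : ℕ, ∀ L : ℕ, L₀ ≤ L → ∀ b : ℕ, 2 ≤ b →
      |(Pool.Agent.TH768.DG.commonOrder b α 0 L : ℝ) - n / ((n : ℝ) + 1) * L| ≤ ε * L) ∧
    (∀ μ : ℝ, 1 + 1 / (n : ℝ) < μ → ∃ C : ℝ, 0 < C ∧ ∀ b : ℕ, 2 ≤ b → ∀ k L : ℕ,
      (L : ℝ) ≤ (∑ i ∈ range (k + 1), μ ^ (i + 1)) *
        (Pool.Agent.TH768.DG.commonOrder b α k L +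
          C * Real.sqrt (((Pool.Agent.TH768.DG.commonOrder b α k L : ℝ) + 1) *
            Real.log ((Pool.Agent.TH768.DG.commonOrder b α k L : ℝ) + 2)))) :=
  ⟨fun ε hε => Pool.Agent.TH768.DG.two_sided hn α (normal n α halg hli) ε hε,
    fun μ hμ => Pool.Agent.TH768.DG.lower_mu hn α (normal n α halg hli) μ hμ⟩

end Pool.Agent.V1189.SC
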