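import Pool.Agent.TH286.GT.All
import Pool.Agent.W472.AC.Eval

/-!
# Schmidt's theorem on linear forms with algebraic coefficients

Author: helper89. From the subspace theorem of the starting library (`Pool.Agent.TH286.GT.subspaceO`).
-/

set_option autoImplicit false

namespace Pool.Agent.V1189.SC

open Finset Filter Topology Pool.Agent.TH286.GT
open Pool.Agent.W472.AC (Meas)

/-- the matrix of the forms -/
def MM {O : Type} [CommRing O] {T : ℕ} (d : Fin (T + 1) → O) : Matrix (Fin (T + 1)) (Fin (T + 1)) O :=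
  fun i j => Fin.cases (motive := fun _ => O) (d j) (fun i' => if i'.succ = j then 1 else 0) i

@[simp] lemma MM_0 {O : Type} [CommRing O] {T : ℕ} (d : Fin (T + 1) → O) (j : Fin (T + 1)) :
    MM d 0 j = d j := rfl
@[simp] lemma MM_s {O : Type} [CommRing O] {T : ℕ} (d : Fin (T + 1) → O) (i : Fin T)
    (j : Fin (T + 1)) : MM d i.succ j = if i.succ = j then 1 else 0 := rfl

lemma det_MM {O : Type} [CommRing O] {T : ℕ} (d : Fin (T + 1) → O) : (MM d).det = d 0 := by
  rw [Matrix.det_of_isUpperTriangular, Fin.prod_univ_succ]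
  · simp
  · intro i j hij
    simp only [id] at hij
    induction i using Fin.cases with
    | zero => exact absurd hij (Fin.not_lt_zero _)
    | succ i =>
      rw [MM_s, if_neg]
      rintro rfl
      exact lt_irrefl _ hij

theorem sub_step (m : ℕ) (x : Fin (m + 1) → ℝ) (hx0 : x 0 ≠ 0) (halg : ∀ j, IsAlgebraic ℚ (x j))
    (η : ℝ) (hη : 0 < η) (H : ℕ → ℝ) (hH : Tendsto H atTop atTop) (v : ℕ → Fin (m + 1) → ℤ)
    (hv0 : ∀ t, v t ≠ 0) (hv : ∀ t j, |(v t j : ℝ)| ≤ H t)
    (hs : ∀ t, |∑ j, (v t j : ℝ) * x j| ≤ H t ^ (-((m : ℝ) + η))) :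
    ∃ y : Fin (m + 1) → ℤ, y ≠ 0 ∧ ∃ᶠ t in atTop, ∑ j, y j * v t j = 0 := by
  -- the number field
  set F : IntermediateField ℚ ℝ := IntermediateField.adjoin ℚ (Set.range x) with hFdef
  have hF : FiniteDimensional ℚ F := by
    apply IntermediateField.finiteDimensional_adjoin
    rintro z ⟨i, rfl⟩
    exact (halg i).isIntegral
  have : NumberField F := { to_charZero := inferInstance, to_finiteDimensional := hF }
  let c : Fin (m + 1) → F := fun i => ⟨x i, IntermediateField.subset_adjoin ℚ _ ⟨i, rfl⟩⟩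
  obtain ⟨Nn, hNn⟩ := IsLocalization.exist_integer_multiples_of_finite
    (nonZeroDivisors (NumberField.RingOfIntegers F)) c
  have hN0 : (Nn : NumberField.RingOfIntegers F) ≠ 0 := nonZeroDivisors.ne_zero Nn.2
  have hN' : ∀ i, ∃ M : NumberField.RingOfIntegers F,
      algebraMap (NumberField.RingOfIntegers F) F M
        = algebraMap (NumberField.RingOfIntegers F) F (Nn : NumberField.RingOfIntegers F)
          * c i := by
    intro i
    obtain ⟨M, hM⟩ := hNn i
    refine ⟨M, ?_⟩
    rw [hM, Algebra.smul_def]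
  choose d hd using hN'
  have hinj : Function.Injective (algebraMap (NumberField.RingOfIntegers F) F) :=
    IsFractionRing.injective _ _
  set ψ : NumberField.RingOfIntegers F →+* ℝ :=
    (algebraMap F ℝ).comp (algebraMap (NumberField.RingOfIntegers F) F) with hψ
  set φ : NumberField.RingOfIntegers F →+* ℂ := Complex.ofRealHom.comp ψ with hφ
  set ν : ℝ := ψ (Nn : NumberField.RingOfIntegers F) with hν
  have hν0 : ν ≠ 0 := by
    intro h
    apply hN0
    apply hinj
    rw [map_zero]
    apply (algebraMap F ℝ).injective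
    rw [map_zero]
    exact h
  have hνp : 0 < |ν| := abs_pos.2 hν0
  set lν : ℝ := Real.log |ν| with hlν
  have hψd : ∀ i, ψ (d i) = ν * x i := by
    intro i
    have h1 := congrArg (algebraMap F ℝ) (hd i)
    rw [map_mul] at h1
    exact h1
  have hd0 : d 0 ≠ 0 := by
    intro h
    have h1 := hψd 0
    rw [h, map_zero] at h1
    exact mul_ne_zero hν0 hx0 h1.symm
  -- the tail
  have hlog : Tendsto (fun t => Real.log (H t)) atTop atTop := Real.tendsto_log_atTop.comp hH
  obtain ⟨t0, ht0⟩ : ∃ t0, ∀ t, t0 ≤ t → (1 : ℝ) ≤ H t ∧ (1 : ℝ) ≤ Real.log (H t) ∧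
      lν ≤ η / 2 * Real.log (H t) := by
    have h0 : ∀ᶠ t in atTop, (1 : ℝ) ≤ H t := hH.eventually (eventually_ge_atTop 1)
    have h2 : ∀ᶠ t in atTop, (1 : ℝ) ≤ Real.log (H t) := hlog.eventually (eventually_ge_atTop 1)
    have h3 : ∀ᶠ t in atTop, lν / (η / 2) ≤ Real.log (H t) :=
      hlog.eventually (eventually_ge_atTop _)
    obtain ⟨t0, ht0⟩ := eventually_atTop.1 (h0.and (h2.and h3))
    refine ⟨t0, fun t ht => ⟨(ht0 t ht).1, (ht0 t ht).2.1, ?_⟩⟩
    have h4 := (ht0 t ht).2.2
    rw [div_le_iff₀ (by positivity)] at h4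
    linarith
  let N : ℕ → ℝ := fun t => Real.log (H (t + t0))
  let A : ℕ → Fin (m + 1) → ℝ := fun t =>
    Fin.cons (|ν| * H (t + t0) ^ (-((m : ℝ) + η))) (fun _ => H (t + t0))
  have hA0 : ∀ t, A t 0 = |ν| * H (t + t0) ^ (-((m : ℝ) + η)) := fun t => rfl
  have hAs : ∀ t i, A t (Fin.succ i) = H (t + t0) := fun t i => rfl
  have hHp : ∀ t, 0 < H (t + t0) := fun t => by
    have := (ht0 (t + t0) (Nat.le_add_left _ _)).1
    linarith
  have hlogA0 : ∀ t, Real.log (A t 0) = lν - (m + η) * N t := by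
    intro t
    rw [hA0, Real.log_mul hνp.ne' (Real.rpow_pos_of_pos (hHp t) _).ne', Real.log_rpow (hHp t)]
    ring
  set C : ℝ := 1 + |lν| + (m + η) with hC
  have hm0 : (0 : ℝ) ≤ m := Nat.cast_nonneg m
  have hC1 : 1 ≤ C := by
    have := abs_nonneg lν
    linarith
  have hsize : ∀ t, SizeO C (η / 2) (N t) (1 : Matrix (Fin (m + 1)) (Fin (m + 1)) ℤ) (A t) := by
    intro t
    obtain ⟨h0, h1, h2⟩ := ht0 (t + t0) (Nat.le_add_left _ _)
    have hN1 : 1 ≤ N t := h1
    have hN2 : lν ≤ η / 2 * N t := h2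
    have e2 : |lν| ≤ |lν| * N t := le_mul_of_one_le_right (abs_nonneg _) h1
    have e3 : 0 ≤ ((m : ℝ) + η) * N t := by positivity
    refine ⟨?_, ?_, ?_, ?_⟩
    · rw [Matrix.det_one, Int.cast_one, abs_one, Real.log_one]
      positivity
    · intro l
      induction l using Fin.cases with
      | zero => rw [hA0]; exact mul_pos hνp (Real.rpow_pos_of_pos (hHp t) _)
      | succ i => rw [hAs]; exact hHp t
    · intro l
      induction l using Fin.cases with
      | zero =>
        rw [hlogA0, abs_le]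
        have e7 := neg_abs_le (lν)
        have e8 := le_abs_self (lν)
        rw [hC]
        constructor
        · nlinarith
        · nlinarith
      | succ i =>
        rw [hAs, abs_of_nonneg (by linarith : 0 ≤ Real.log (H (t + t0)))]
        change N t ≤ C * N t
        nlinarith
    · rw [Matrix.det_one, Int.cast_one, abs_one, Real.log_one, Fin.sum_univ_succ, hlogA0]
      simp only [hAs]
      rw [Finset.sum_const, Finset.card_univ, Fintype.card_fin, nsmul_eq_mul]
      change lν - (m + η) * N t + m * N t + η / 2 * N t ≤ 0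
      linarith
  have hsol : ∀ t, SolO φ (MM d) (1 : Matrix (Fin (m + 1)) (Fin (m + 1)) ℤ) (A t) (v (t + t0)) := by
    intro t
    refine ⟨?_, v (t + t0), by rw [Matrix.one_mulVec]⟩
    intro l
    have hre : ∀ z, ‖φ z‖ = |ψ z| := by
      intro z
      rw [hφ, RingHom.comp_apply, Complex.ofRealHom_eq_coe, Complex.norm_real, Real.norm_eq_abs]
    rw [hre, map_sum]
    induction l using Fin.cases with
    | zero =>
      rw [hA0]
      simp only [MM_0, map_mul, map_intCast, hψd]
      have h1 : ∑ j, ν * x j * (v (t + t0) j : ℝ) = ν * ∑ j, (v (t + t0) j : ℝ) * x j := by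
        rw [Finset.mul_sum]
        exact Finset.sum_congr rfl fun j _ => by ring
      rw [h1, abs_mul]
      exact mul_le_mul_of_nonneg_left (hs (t + t0)) (abs_nonneg _)
    | succ i =>
      rw [hAs]
      simp only [MM_s, map_mul, map_intCast]
      rw [Finset.sum_eq_single i.succ]
      · rw [if_pos rfl, map_one, one_mul]
        exact hv (t + t0) _
      · intro j _ hj
        rw [if_neg (Ne.symm hj), map_zero, zero_mul]
      · intro h; exact absurd (Finset.mem_univ _) h
  have hdata : DataO φ (MM d)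
      (1 : Matrix (Fin (m + 1)) (Fin (m + 1)) (NumberField.RingOfIntegers F))
      (fun _ _ => 1 : Fin 0 → Fin (m + 1) → NumberField.RingOfIntegers F) := by
    refine ⟨?_, ?_, ?_, ?_⟩
    · rw [det_MM]; exact hd0
    · intro i j
      rw [hφ, RingHom.comp_apply, Complex.ofRealHom_eq_coe, Complex.ofReal_im]
    · rw [Matrix.det_one]; exact one_ne_zero
    · intro v l; exact one_ne_zero
  have hNt : Tendsto N atTop atTop := hlog.comp (tendsto_add_atTop_nat t0)
  have hlat : ∀ t : ℕ, Lat (1 : Matrix (Fin (m + 1)) (Fin (m + 1)) (NumberField.RingOfIntegers F))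
      (bet (fun _ _ => 1 : Fin 0 → Fin (m + 1) → NumberField.RingOfIntegers F) (fun _ => 0))
      (1 : Matrix (Fin (m + 1)) (Fin (m + 1)) ℤ) := by
    intro t
    refine ⟨by rw [Matrix.det_one]; exact one_ne_zero, ?_⟩
    have hb : bet (fun _ _ => 1 : Fin 0 → Fin (m + 1) → NumberField.RingOfIntegers F)
        (fun _ => 0) = fun _ => 1 := by
      funext l
      simp [bet]
    rw [hb, Matrix.map_one _ (map_zero _) (map_one _)]
    have : (Matrix.diagonal fun _ : Fin (m + 1) => (1 : NumberField.RingOfIntegers F)) = 1 :=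
      Matrix.diagonal_one
    rw [this]
  obtain ⟨y, hy0, hy⟩ := subspaceO (NumberField.RingOfIntegers F) φ (m + 1) 0 (by omega)
    (MM d) 1 (fun _ _ => 1) hdata C (η / 2) hC1 (by positivity) N hNt (fun _ _ => 0) (fun _ => 1)
    hlat A hsize (fun t => v (t + t0)) (fun t => hv0 _) hsol
  refine ⟨y, hy0, ?_⟩
  exact (tendsto_add_atTop_nat t0).frequently (hy.mono fun t ht => ht)

/-- a common bound for finitely many positive numbers -/
lemma common_pos {ι : Type*} (s : Finset ι) (c : ι → ℝ) (hc : ∀ i, 0 < c i) :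
    ∃ d : ℝ, 0 < d ∧ d ≤ 1 ∧ ∀ i ∈ s, d ≤ c i := by
  classical
  have h0 : 0 ≤ ∑ i ∈ s, 1 / c i := Finset.sum_nonneg fun i _ => (one_div_pos.2 (hc i)).le
  refine ⟨1 / (1 + ∑ i ∈ s, 1 / c i), by positivity, ?_, fun i hi => ?_⟩
  · rw [div_le_one (by linarith)]; linarith
  · have h1 : 1 / c i ≤ ∑ i ∈ s, 1 / c i :=
      Finset.single_le_sum (f := fun i => 1 / c i) (fun i _ => (one_div_pos.2 (hc i)).le) hi
    rw [div_le_iff₀ (by linarith)]
    have h2 : c i * (1 / c i) = 1 := by
      have := (hc i).ne'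
      field_simp
    nlinarith [hc i]

/-- integer vectors which are not killed -/
lemma form_ne {m : ℕ} (x : Fin (m + 1) → ℝ) (hli : LinearIndependent ℚ x) (a : Fin (m + 1) → ℤ)
    (ha : a ≠ 0) : ∑ j, (a j : ℝ) * x j ≠ 0 := by
  intro h
  apply ha
  rw [Fintype.linearIndependent_iff] at hli
  have h1 := hli (fun j => (a j : ℚ)) (by
    rw [← h]
    refine Finset.sum_congr rfl fun j _ => ?_
    rw [Rat.smul_def]; push_cast; rfl)
  funext j
  have := h1 j
  exact_mod_cast this

/-- **Schmidt's theorem.** -/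
theorem schmidt : ∀ (m : ℕ) (x : Fin (m + 1) → ℝ), (∀ j, IsAlgebraic ℚ (x j)) →
    LinearIndependent ℚ x → ∀ η : ℝ, 0 < η → ∃ c : ℝ, 0 < c ∧ Meas x (m + η) c := by
  intro m
  induction m with
  | zero =>
    intro x _ hli η hη
    have hx0 : x 0 ≠ 0 := hli.ne_zero 0
    refine ⟨|x 0|, abs_pos.2 hx0, fun a ha H hH haH => ?_⟩
    have h0 : a 0 ≠ 0 := by
      intro h
      apply ha
      funext j
      rw [Fin.fin_one_eq_zero j]
      exact h
    have h1 : (1 : ℝ) ≤ |(a 0 : ℝ)| := by exact_mod_cast Int.one_le_abs h0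
    rw [Fin.sum_univ_one, abs_mul]
    have h2 : (1 : ℝ) ≤ H ^ (((0 : ℕ) : ℝ) + η) := Real.one_le_rpow hH (by simp; exact hη.le)
    have h3 : |x 0| ≤ |(a 0 : ℝ)| * |x 0| := le_mul_of_one_le_left (abs_nonneg _) h1
    exact h3.trans (le_mul_of_one_le_left (by positivity) h2)
  | succ m ih =>
    intro x halg hli η hη
    by_contra hcon
    push Not at hcon
    -- bad vectors
    have hm0 : (0 : ℝ) ≤ m := Nat.cast_nonneg m
    have hbad : ∀ t : ℕ, ∃ (a : Fin (m + 2) → ℤ) (H : ℝ), a ≠ 0 ∧ 1 ≤ H ∧ (∀ j, |(a j : ℝ)| ≤ H) ∧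
        (t : ℝ) < H ∧ H ^ (((m + 1 : ℕ) : ℝ) + η) * |∑ j, (a j : ℝ) * x j| < 1 := by
      intro t
      classical
      obtain ⟨d, hd0, hd1, hd⟩ := common_pos
        (Fintype.piFinset fun _ : Fin (m + 2) => Finset.Icc (-(t : ℤ)) t)
        (fun a : Fin (m + 2) → ℤ => if a = 0 then 1 else |∑ j, (a j : ℝ) * x j|) (by
          intro a
          split_ifs with h
          · exact one_pos
          · exact abs_pos.2 (form_ne x hli a h))
      have h1 := hcon d hd0
      unfold Pool.Agent.W472.AC.Meas at h1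
      push Not at h1
      obtain ⟨a, ha, H, hH, haH, hlt⟩ := h1
      refine ⟨a, H, ha, hH, haH, ?_, hlt.trans_le hd1⟩
      by_contra hle
      push Not at hle
      have hmem : a ∈ (Fintype.piFinset fun _ : Fin (m + 2) => Finset.Icc (-(t : ℤ)) t) := by
        rw [Fintype.mem_piFinset]
        intro j
        rw [Finset.mem_Icc, ← abs_le]
        have h2 : |(a j : ℝ)| ≤ t := (haH j).trans hle
        exact_mod_cast h2
      have h2 := hd a hmem
      rw [if_neg ha] at h2
      have h3 : (1 : ℝ) ≤ H ^ (((m + 1 : ℕ) : ℝ) + η) := Real.one_le_rpow hH (by push_cast; linarith)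
      have h4 := abs_nonneg (∑ j, (a j : ℝ) * x j)
      nlinarith
    choose a H ha hH haH htH hlt using hbad
    have hHt : Tendsto H atTop atTop :=
      tendsto_atTop_mono (fun t => (htH t).le) tendsto_natCast_atTop_atTop
    have hs : ∀ t, |∑ j, (a t j : ℝ) * x j| ≤ H t ^ (-(((m + 1 : ℕ) : ℝ) + η)) := by
      intro t
      have hp : 0 < H t ^ (((m + 1 : ℕ) : ℝ) + η) := Real.rpow_pos_of_pos (by linarith [hH t]) _
      rw [Real.rpow_neg (by linarith [hH t]), ← one_div, le_div_iff₀ hp]
      linarith [hlt t]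
    obtain ⟨y, hy0, hy⟩ := sub_step (m + 1) x (hli.ne_zero 0) halg η hη H hHt a ha haH hs
    obtain ⟨j0, hj0⟩ : ∃ j0, y j0 ≠ 0 := by
      by_contra h
      push Not at h
      exact hy0 (funext h)
    have hyQ : (y j0 : ℚ) ≠ 0 := by exact_mod_cast hj0
    have hyR : (y j0 : ℝ) ≠ 0 := by exact_mod_cast hj0
    obtain ⟨x', hx'⟩ : ∃ x' : Fin (m + 1) → ℝ, x' = fun i =>
      x (j0.succAbove i) - ((y (j0.succAbove i) : ℚ) / y j0 : ℚ) * x j0 := ⟨_, rfl⟩
    have halg' : ∀ i, IsAlgebraic ℚ (x' i) := by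
      intro i
      rw [hx']
      exact (halg _).sub ((isAlgebraic_algebraMap _).mul (halg j0))
    have hli' : LinearIndependent ℚ x' := by
      rw [Fintype.linearIndependent_iff]
      intro g hg i
      rw [Fintype.linearIndependent_iff] at hli
      have h1 := hli (j0.insertNth (-∑ i, g i * ((y (j0.succAbove i) : ℚ) / y j0)) g) (by
        rw [Fin.sum_univ_succAbove _ j0, Fin.insertNth_apply_same]
        simp only [Fin.insertNth_apply_succAbove]
        have h2 : ∑ i, g i • x (j0.succAbove i) = ∑ i, g i • x' i +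
            (∑ i, g i * ((y (j0.succAbove i) : ℚ) / y j0)) • x j0 := by
          rw [Finset.sum_smul, ← Finset.sum_add_distrib]
          refine Finset.sum_congr rfl fun i _ => ?_
          rw [hx']
          simp only [Rat.smul_def]
          push_cast
          ring
        rw [h2, hg, neg_smul]
        ring)
      have h3 := h1 (j0.succAbove i)
      rwa [Fin.insertNth_apply_succAbove] at h3
    obtain ⟨c', hc', hM⟩ := ih x' halg' hli' η hη
    -- contradiction
    have hev : ∀ᶠ t in atTop, 1 / c' < H t := hHt.eventually (eventually_gt_atTop _)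
    obtain ⟨t, ht1, ht2⟩ := (hy.and_eventually hev).exists
    have hyt : ∑ i, (y (j0.succAbove i) : ℝ) * (a t (j0.succAbove i) : ℝ) =
        -((y j0 : ℝ) * (a t j0 : ℝ)) := by
      have h1 : ((∑ j, y j * a t j : ℤ) : ℝ) = 0 := by rw [ht1]; simp
      rw [Fin.sum_univ_succAbove _ j0] at h1
      push_cast at h1
      linarith
    have hane : (fun i => a t (j0.succAbove i)) ≠ 0 := by
      intro h0
      apply ha t
      have h1 : ∀ i, a t (j0.succAbove i) = 0 := fun i => congrFun h0 i
      have h2 : (a t j0 : ℝ) = 0 := by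
        simp only [h1, Int.cast_zero, mul_zero, Finset.sum_const_zero] at hyt
        have h3 : (y j0 : ℝ) * (a t j0 : ℝ) = 0 := by linarith
        rcases mul_eq_zero.1 h3 with h4 | h4
        · exact absurd h4 hyR
        · exact h4
      funext j
      rcases Fin.eq_self_or_eq_succAbove j0 j with h3 | ⟨i, h3⟩
      · rw [h3]
        have : a t j0 = 0 := by exact_mod_cast h2
        exact this
      · rw [h3]; exact h1 i
    have hfin := hM (fun i => a t (j0.succAbove i)) hane (H t) (hH t) (fun i => haH t _)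
    have hsum : ∑ i, (a t (j0.succAbove i) : ℝ) * x' i = ∑ j, (a t j : ℝ) * x j := by
      rw [Fin.sum_univ_succAbove (fun j => (a t j : ℝ) * x j) j0]
      have h1 : ∀ i ∈ (univ : Finset (Fin (m + 1))), (a t (j0.succAbove i) : ℝ) * x' i =
          (a t (j0.succAbove i) : ℝ) * x (j0.succAbove i) -
            (y (j0.succAbove i) : ℝ) * (a t (j0.succAbove i) : ℝ) * (x j0 / y j0) := by
        intro i _
        rw [hx']
        push_cast
        ring
      rw [Finset.sum_congr rfl h1, Finset.sum_sub_distrib, ← Finset.sum_mul, hyt]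
      field_simp
      ring
    rw [hsum] at hfin
    have hHp : 0 < H t := by linarith [hH t]
    have h1 : c' ≤ H t ^ ((m : ℝ) + η) * H t ^ (-(((m + 1 : ℕ) : ℝ) + η)) :=
      hfin.trans (mul_le_mul_of_nonneg_left (hs t) (Real.rpow_nonneg hHp.le _))
    rw [← Real.rpow_add hHp] at h1
    have e : (m : ℝ) + η + -(((m + 1 : ℕ) : ℝ) + η) = -1 := by push_cast; ring
    rw [e, Real.rpow_neg_one] at h1
    have h2 : c' * H t ≤ 1 := by
      have := mul_le_mul_of_nonneg_right h1 hHp.le
      rwa [inv_mul_cancel₀ hHp.ne'] at this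
    rw [div_lt_iff₀ hc'] at ht2
    linarith

end Pool.Agent.V1189.SC
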